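import Pool.Agent.Q170.GP.Quasi

/-!
# A gap principle for self-maps of quasi-projective varieties

Let `X ⊆ ℙ^N` be a quasi-projective variety over the complex numbers (not necessarily irreducible or
smooth), given by forms `A` and `B`: `x ∈ X` if all forms of `A` and not all forms of `B` vanish at `x`. Let
`Φ : X → X` be a morphism and `V` the closed subset of `X` given by the forms `C`. Suppose that there is no
point `x ∈ X` with `Φ^(kn)(x) ∈ V` for all `n`, for a number `k > 0`; in other words `V` contains no
subvariety `Z`, points included, with `Φ^k(Z) ⊆ Z`.

1. For every finite set `s` of complex numbers there are `M`, `b > 1`, `c > 0` such that for all points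
`α` of `X` which are integral over the ring `ℤ[s]`, and, if `X` is closed in `ℙ^N`, for all points `α` of `X`
with coordinates in the field generated by `s`, and for all `T` at most `M` of the numbers `n` with
`Φ^n(α) ∈ V` are between `T` and `b ^ T / c`. The constants do not depend on `α`.
2. Every point `α ∈ X` is integral over `ℤ[s]` for some `s`. So for every point the return set is sparse.
3. Such sparse sets have at most `D (j + 1)` elements below the `j`-th iterated exponential.

The map need not be finite, étale or dominant, and the variety may be singular.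

The proof: `X` and `Φ` have a model over the `p`-adic integers for suitable `p`, and the set `Ω` of the
`p`-adic integral points of `X` (with primitive homogeneous coordinates) is compact and mapped to itself.
The map is given by polynomials on the points of `Ω` in each residue class modulo `p`. On a residue class
which is mapped to itself the operator `T` which substitutes the map is modulo `p` the substitution of an
affine map. So an iterate of `T` is idempotent modulo `p`, and the values `g(n)` of a polynomial along an
orbit satisfy `Δ^i g(n) ≡ 0` modulo `p ^ min(i, n)`. Hence `g(n)` is, up to multiples of `p ^ n`, an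
analytic function of `n`, the corresponding function of a limit orbit in `Ω`. As no orbit in `Ω` stays in
`V`, this function is not identically zero, and by compactness there is a bound for the number of its
zeros which does not depend on the orbit.
-/

set_option autoImplicit false

open MvPolynomial

namespace Pool.Agent.Results.MP_295d38_ag.GapPrinciple

open Pool.Agent.Q170.GP (PN QVar IsMorphism ZeroOf IntegralPt RationalPt Sparse tower)

theorem result :
    (∀ (N : ℕ) (X : QVar N) (Φ : PN N → PN N), IsMorphism X Φ →
      ∀ C : Set (MvPolynomial (Fin (N + 1)) ℂ), (∀ F ∈ C, ∃ d : ℕ, F.IsHomogeneous d) →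
      (∀ x ∈ X.pts, ∀ k : ℕ, 0 < k → ∃ n, ¬ ZeroOf C (Φ^[k * n] x)) →
      (∀ s : Finset ℂ, ∃ (M : ℕ) (b c : ℝ), 1 < b ∧ 0 < c ∧ ∀ α ∈ X.pts,
        (IntegralPt X s α ∨ (X.IsClosed ∧ RationalPt s α)) →
          Sparse M b c {n | ZeroOf C (Φ^[n] α)}) ∧
      ∀ α ∈ X.pts, ∃ s : Finset ℂ, IntegralPt X s α) ∧
    ∀ (M : ℕ) (b c : ℝ), 1 < b → 0 < c → ∃ D : ℕ, ∀ R : Set ℕ, Sparse M b c R → ∀ j : ℕ,
      {n : ℕ | n ∈ R ∧ n < tower j}.encard ≤ (D * (j + 1) : ℕ) :=
  ⟨fun _ X Φ hΦ C hC hV => ⟨fun s => Pool.Agent.Q170.GP.qproj_gap X Φ hΦ C hC hV s,
    fun α hα => Pool.Agent.Q170.GP.exists_integral X α hα⟩, fun M b c hb hc => Pool.Agent.Q170.GP.tower_count M b c hb hc⟩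

end Pool.Agent.Results.MP_295d38_ag.GapPrinciple
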