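import Mathlib
import Pool.Agent.Q8.KS.Split

/-!
MP_295d38_ag, Q1: return sets of split maps `f₁ × f₂` of products of arbitrary projective varieties,
the second coordinate of the starting point having large relative degree.
-/

set_option autoImplicit false

namespace Pool.Agent.Results.MP_295d38_ag.SplitMapsAtLargeDegree

open Pool.Agent.Q8.KS

variable {G : Type} [Group G] {V₁ V₂ W Z : Variety G}

/-- For all but finitely many points `w` with `[K(w) : K(φ(w))] > (1 - κ) N` and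
`[K(φ(w)) : K] ≤ e` the set `R w` is empty, for all `e`. -/
def EmptyForAlmostAll (φ : Cover W) (κ : ℝ) (R : W.Pt → Set ℕ) : Prop :=
  ∀ e : ℕ, {w : W.Pt | ((1 - κ) * φ.N < φ.relDeg w ∧
    (MulAction.orbit G (φ.φ w)).ncard ≤ e) ∧ (R w).Nonempty}.Finite

/-- The assertion for the split map `F₁ × f₂` if the first dynamical degree of `F₁` is smaller: there
are `C > 0` and `ρ > 1` such that for all `x₁` with a well-defined orbit the return set of
`(x₁, π(w))` is finite if `[K(w) : K(φ(w))] > (1 - κ) N` and `h(φ(w)) ≥ C`, all its elements `k`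
satisfy `ρ^k h(φ(w)) ≤ C max(1, h₁(x₁))`, and it is empty for almost all such `w` of bounded
degree. -/
def FiniteReturns (φ : Cover W) (κ : ℝ) (π : Morphism W V₂) (q₁ : Morphism Z V₁)
    (q₂ : Morphism Z V₂) (h₁ : V₁.Pt → ℝ) (F₁ : RationalSelfMap V₁) (f₂ : Morphism V₂ V₂) : Prop :=
  ∃ C ρ : ℝ, 0 < C ∧ 1 < ρ ∧ ∀ x₁ ∈ F₁.dom,
    (∀ w : W.Pt, (1 - κ) * φ.N < φ.relDeg w → C ≤ φ.h (φ.φ w) →
      (returnSet q₁ q₂ F₁.pt f₂.pt x₁ (π.pt w)).Finite ∧
      ∀ k ∈ returnSet q₁ q₂ F₁.pt f₂.pt x₁ (π.pt w), ρ ^ k * φ.h (φ.φ w) ≤ C * max 1 (h₁ x₁)) ∧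
    EmptyForAlmostAll φ κ fun w => returnSet q₁ q₂ F₁.pt f₂.pt x₁ (π.pt w)

/-- The assertion for the split map `f₁ × f₂` if the degrees of the iterates of `f₁` are at most
those of `f₂`, up to a constant: there is `C > 0` such that for all `x₁` and all `w` with
`[K(w) : K(φ(w))] > (1 - κ) N` and `h(φ(w)) ≥ C max(1, h₁(x₁))` the return set of `(x₁, π(w))` is
empty, and so it is for almost all such `w` of bounded degree. -/
def NoReturns (φ : Cover W) (κ : ℝ) (π : Morphism W V₂) (q₁ : Morphism Z V₁)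
    (q₂ : Morphism Z V₂) (h₁ : V₁.Pt → ℝ) (f₁ : Morphism V₁ V₁) (f₂ : Morphism V₂ V₂) : Prop :=
  ∃ C : ℝ, 0 < C ∧ ∀ x₁ : V₁.Pt,
    (∀ w : W.Pt, (1 - κ) * φ.N < φ.relDeg w → C * max 1 (h₁ x₁) ≤ φ.h (φ.φ w) →
      returnSet q₁ q₂ f₁.pt f₂.pt x₁ (π.pt w) = ∅) ∧
    EmptyForAlmostAll φ κ fun w => returnSet q₁ q₂ f₁.pt f₂.pt x₁ (π.pt w)

/-- Let `V₂` be a projective variety over a number field `K` with absolute Galois group `G`, let
`π : W → V₂` be a surjective morphism (e.g. the identity), `m = dim W`, and let `H₀` be an ample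
class on `W`. There is `κ > 0` such that the following holds for all endomorphisms `f₂` of `V₂` with
first dynamical degree `d₂ > 1` and all finite morphisms `φ : W → ℙ^m` of degree `N` such that
`φ^* O(1)` is numerically a positive multiple of `H₀`. Let `V₁` be a projective variety, `A₁` an
ample class on `V₁` with the height `h₁`, and let `Z → V₁ × V₂` be a morphism which is finite over
`V₁` (e.g. a closed subvariety of the product which is finite over `V₁`).

(1) Let `F₁ : V₁ ⇢ V₁` be a dominant rational map (e.g. an endomorphism) with first dynamical degree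
less than `d₂`. There are `C > 0` and `ρ > 1` such that for all points `x₁` with a well-defined
orbit and all `w` with `[K(w) : K(φ(w))] > (1 - κ) N` and `h(φ(w)) ≥ C` the set of the `k` such that
`(F₁^k (x₁), f₂^k (π(w)))` is in the image of `Z` is finite, and `ρ^k h(φ(w)) ≤ C max(1, h₁(x₁))` for
all these `k`. For all `x₁` and `e` this set is empty for all but finitely many `w` with
`[K(w) : K(φ(w))] > (1 - κ) N` and `[K(φ(w)) : K] ≤ e`.

(2) Let `f₁` be an endomorphism of `V₁` with first dynamical degree `d₁ > 1` such that the degree of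
`f₁^k` is at most `B` times the degree of `f₂^k` for all `k` (e.g. `V₁ = V₂` and `f₁ = f₂`). There
is `C > 0` such that for all points `x₁` of `V₁` and all `w` with `[K(w) : K(φ(w))] > (1 - κ) N` and
`h(φ(w)) ≥ C max(1, h₁(x₁))` the orbit of `(x₁, π(w))` under `f₁ × f₂` does not meet the image of `Z`;
so for all `x₁` and `e` this holds for all but finitely many `w` with
`[K(w) : K(φ(w))] > (1 - κ) N` and `[K(φ(w)) : K] ≤ e`. -/
theorem result {G : Type} [Group G] (V₂ W : Variety G) (π : Morphism W V₂)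
    (hπ : Function.Surjective π.pt) (H₀ : W.Pic) (hH₀ : W.IsAmple H₀) :
    ∃ κ : ℝ, 0 < κ ∧ ∀ (f₂ : Morphism V₂ V₂) (A₂ : V₂.Pic) (d₂ : ℝ), V₂.IsAmple A₂ → 1 < d₂ →
      IsDynamicalDegree f₂ A₂ d₂ →
      ∀ φ : Cover W, (∃ t : ℝ, 0 < t ∧ W.cls φ.H = t • W.cls H₀) →
      ∀ (V₁ Z : Variety G) (q₁ : Morphism Z V₁) (q₂ : Morphism Z V₂) (A₁ : V₁.Pic)
        (h₁ : V₁.Pt → ℝ), V₁.IsAmple A₁ → V₁.IsHeight A₁ h₁ → Z.IsAmple (q₁.pic A₁) →
      (∀ F₁ : RationalSelfMap V₁, F₁.δ < d₂ → FiniteReturns φ κ π q₁ q₂ h₁ F₁ f₂) ∧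
      ∀ (f₁ : Morphism V₁ V₁) (d₁ B : ℝ), 1 < d₁ → IsDynamicalDegree f₁ A₁ d₁ →
        (∀ k, V₁.deg (V₁.cls A₁) ((f₁.ns ^ k) (V₁.cls A₁)) ≤
          B * V₂.deg (V₂.cls A₂) ((f₂.ns ^ k) (V₂.cls A₂))) → NoReturns φ κ π q₁ q₂ h₁ f₁ f₂ :=
  split_returns π hπ hH₀

end Pool.Agent.Results.MP_295d38_ag.SplitMapsAtLargeDegree
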