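import Mathlib
import Pool.Agent.Q8.KS.Small

/-!
MP_295d38_ag, Q1: a uniform bound for the return sets of points of large relative degree, for
subvarieties on which a class of small growth is ample.
-/

set_option autoImplicit false

namespace Pool.Agent.Results.MP_295d38_ag.UniformReturnBound

open Pool.Agent.Q8.KS

/-- Let `V` be a projective variety over a number field `K` with absolute Galois group `G`, let
`π : W → V` be a surjective morphism (e.g. the identity), `m = dim W`, and let `H₀` be an ample
class on `W`. There is `κ > 0` such that the following holds. Let `f` be an endomorphism of `V` with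
first dynamical degree `d > 1`, and let `D` be a class in `N¹(V)` with `‖(f^k)^* D‖ ≤ B r^k` for all
`k`, where `r < d` (e.g. the pullback of a class on `Y` if `f` lies over an endomorphism of `Y` with
a smaller first dynamical degree). Let `q : Z → V` be a morphism such that `q^* D` is ample (e.g. a
closed subvariety `Z` of `V` which is finite over `Y`), and let `φ : W → ℙ^m` be a finite morphism of
degree `N` such that `φ^* O(1)` is numerically a positive multiple of `H₀`. There are `C > 0` and
`k₀` such that:

(1) For all points `w` with `[K(w) : K(φ(w))] > (1 - κ) N` and `h(φ(w)) ≥ C` all `k` such that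
`f^k (π(w))` is in the image of `Z` are smaller than `k₀`.

(2) For every `e` this holds for all but finitely many points `w` with
`[K(w) : K(φ(w))] > (1 - κ) N` and `[K(φ(w)) : K] ≤ e`. -/
theorem result {G : Type} [Group G] (V W : Variety G) (π : Morphism W V)
    (hπ : Function.Surjective π.pt) (H₀ : W.Pic) (hH₀ : W.IsAmple H₀) :
    ∃ κ : ℝ, 0 < κ ∧ ∀ (f : Morphism V V) (A : V.Pic) (d : ℝ), V.IsAmple A → 1 < d →
      IsDynamicalDegree f A d → ∀ (D : V.NS) (B r : ℝ), 0 < r → r < d →
      (∀ k : ℕ, ‖(f.ns ^ k) D‖ ≤ B * r ^ k) → ∀ (Z : Variety G) (q : Morphism Z V),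
      q.ns D ∈ interior Z.Nef →
      ∀ φ : Cover W, (∃ t : ℝ, 0 < t ∧ W.cls φ.H = t • W.cls H₀) →
        ∃ (C : ℝ) (k₀ : ℕ), 0 < C ∧
          (∀ w : W.Pt, (1 - κ) * φ.N < φ.relDeg w → C ≤ φ.h (φ.φ w) → ∀ k, k₀ ≤ k →
            ∀ z : Z.Pt, q.pt z ≠ f.pt^[k] (π.pt w)) ∧
          ∀ e : ℕ, {w : W.Pt | ((1 - κ) * φ.N < φ.relDeg w ∧
            (MulAction.orbit G (φ.φ w)).ncard ≤ e) ∧
              ∃ k, k₀ ≤ k ∧ ∃ z : Z.Pt, q.pt z = f.pt^[k] (π.pt w)}.Finite :=
  uniform_returns π hπ hH₀

end Pool.Agent.Results.MP_295d38_ag.UniformReturnBound
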