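import Pool.Agent.Q170.WD.FinP
import Pool.Agent.Q170.HG.MainQ

/-!
# The weak dynamical Mordell-Lang theorem with a rate, uniformly in all data

Let `K` be a field, `X` a set of points of `ℙ^N(K)`, and `Φ : X → X` a map which is given locally by forms.
For example `X` is the set of the `K`-points of a quasi-projective variety and `Φ` is a morphism, or `X` is the set
of the points with a well-defined orbit under a rational self-map of a projective variety. Let `V` be a closed
subset of dimension at most `k`, and `S(α) = {n | Φ^n(α) ∈ V}`.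

1. The number of the returns `n ∈ S(α)` in an interval `[M, M + T)` such that `S(α)` contains none of the
infinite progressions `n + g ℕ`, `1 ≤ g < T`, is at most `C T / L`, where `L` is the `k`-fold iterated logarithm of
`T`. The constant `C` depends only on `N`, the degrees of the forms which give `Φ` and `V`, and `k`.
It does not depend on the field, on `Φ`, `V` and `α`.
2. If the iterates `Φ^g` are given locally by forms of degree at most `b g ^ κ`, it is at most
`C T ^ (1 - 1 / (κ + 4) ^ k)`, and `C` depends only on `N`, `b`, `κ`, `k` and the degrees of the equations of `V`.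
3. The elements of `S(α)` which lie in an infinite progression contained in `S(α)` form a finite union of
infinite progressions.

The proof: if `P` is an irreducible cone of dimension `k + 1` and degree `δ` which is cut out by forms of
degree at most `δ`, and it contains the coordinates of a point `y` of `X` but not those of `Φ^g(y)`, then the
points of `P` whose image under `Φ^g` is also in `P` lie in at most `δ ^ 2 D ^ g` irreducible cones of smaller
dimension and of degree at most `δ ^ 2 D ^ g`. A set of returns without progressions with many elements in an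
interval has many pairs of elements at a small distance `g`; so one of these cones contains many of the
returns, and an induction on the dimension applies. Degrees are defined with affine Hilbert functions.
-/

set_option autoImplicit false

open MvPolynomial

namespace Pool.Agent.Results.MP_295d38_ag.WeakMordellLangWithRate

/-- The points of the projective space over `K`. -/
abbrev PN (K : Type) [Field K] (N : ℕ) : Type := Projectivization K (Fin (N + 1) → K)

/-- `v` is a vector of homogeneous coordinates of the point `x`. -/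
def Coord {K : Type} [Field K] {N : ℕ} (x : PN K N) (v : Fin (N + 1) → K) : Prop :=
  ∃ h : v ≠ 0, Projectivization.mk K v h = x

/-- On the part of `X` where the form `g` is not zero, the map `Ψ` is given by the forms `F i`; the
degree of the `F i` plus the degree of `g` is at most `D`. -/
def IsChart {K : Type} [Field K] {N : ℕ} (D : ℕ) (X : Set (PN K N)) (Ψ : PN K N → PN K N)
    (F : Fin (N + 1) → MvPolynomial (Fin (N + 1)) K) (g : MvPolynomial (Fin (N + 1)) K) : Prop :=
  ∃ d e : ℕ, (∀ i, (F i).IsHomogeneous d) ∧ g.IsHomogeneous e ∧ d + e ≤ D ∧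
    ∀ y ∈ X, eval y.rep g ≠ 0 → Coord (Ψ y) fun i => eval y.rep (F i)

/-- `Ψ` is given on `X` locally by forms of degree at most `D`. -/
def GivenInDegree {K : Type} [Field K] {N : ℕ} (D : ℕ) (X : Set (PN K N))
    (Ψ : PN K N → PN K N) : Prop :=
  ∀ x ∈ X, ∃ F g, eval x.rep g ≠ 0 ∧ IsChart D X Ψ F g

/-- `Φ` maps `X` to `X` and is given locally by forms (of any degrees). -/
def IsMorphism {K : Type} [Field K] {N : ℕ} (X : Set (PN K N)) (Φ : PN K N → PN K N) : Prop :=
  (∀ x ∈ X, Φ x ∈ X) ∧ ∀ x ∈ X, ∃ D F g, eval x.rep g ≠ 0 ∧ IsChart D X Φ F g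

/-- A closed subset of `ℙ^N`, given by forms. -/
structure Closed (K : Type) [Field K] (N : ℕ) where
  forms : Set (MvPolynomial (Fin (N + 1)) K)
  homogeneous : ∀ g ∈ forms, ∃ e : ℕ, g.IsHomogeneous e

/-- The point `x` is in `V`. -/
def Closed.Has {K : Type} [Field K] {N : ℕ} (V : Closed K N) (x : PN K N) : Prop :=
  ∀ g ∈ V.forms, eval x.rep g = 0

/-- The equations of `V` have degree at most `e`. -/
def Closed.DegreeLE {K : Type} [Field K] {N : ℕ} (V : Closed K N) (e : ℕ) : Prop :=
  ∀ g ∈ V.forms, g.totalDegree ≤ e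

/-- The dimension of `V` is at most `k` (the Krull dimension of the ring of the cone is at most
`k + 1`). -/
def Closed.DimLE {K : Type} [Field K] {N : ℕ} (V : Closed K N) (k : ℕ) : Prop :=
  ringKrullDim (MvPolynomial (Fin (N + 1)) K ⧸ Ideal.span V.forms) ≤ ((k + 1 : ℕ) : WithBot ℕ∞)

/-- The `n` such that `Φ^n(α)` is in `V`, but for no `1 ≤ g < T` all the `Φ^(n + g j)(α)`, `j ≥ 0`, are
in `V`. -/
def Exceptional {K : Type} [Field K] {N : ℕ} (Φ : PN K N → PN K N) (V : Closed K N) (T : ℕ)
    (α : PN K N) : Set ℕ :=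
  {n | V.Has (Φ^[n] α) ∧ ∀ g, 1 ≤ g → g < T → ∃ j, ¬ V.Has (Φ^[n + g * j] α)}

theorem result :
    (∀ N D e k : ℕ, ∃ C : ℕ, ∀ (K : Type) [Field K] (X : Set (PN K N)) (Φ : PN K N → PN K N)
      (V : Closed K N), (∀ x ∈ X, Φ x ∈ X) → GivenInDegree D X Φ → V.DegreeLE e → V.DimLE k →
      ∀ α ∈ X, ∀ M T : ℕ,
        (Exceptional Φ V T α ∩ Set.Ico M (M + T)).ncard * (Nat.log 2)^[k] T ≤ C * T) ∧
    (∀ N b κ e k : ℕ, ∃ C : ℕ, ∀ (K : Type) [Field K] (X : Set (PN K N)) (Φ : PN K N → PN K N)
      (V : Closed K N), (∀ x ∈ X, Φ x ∈ X) →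
      (∀ g, 1 ≤ g → GivenInDegree (b * g ^ κ) X (Φ^[g])) → V.DegreeLE e → V.DimLE k →
      ∀ α ∈ X, ∀ M T : ℕ, 1 ≤ T →
        ((Exceptional Φ V T α ∩ Set.Ico M (M + T)).ncard : ℝ) ≤
          C * (T : ℝ) ^ (1 - 1 / ((κ : ℝ) + 4) ^ k)) ∧
    (∀ (K : Type) [Field K] (N : ℕ) (X : Set (PN K N)) (Φ : PN K N → PN K N), IsMorphism X Φ →
      (∃ D, GivenInDegree D X Φ) ∧ ∀ V : Closed K N, ∀ α ∈ X,
        ∃ F : Finset (ℕ × ℕ), (∀ p ∈ F, 1 ≤ p.2) ∧
          {n | ∃ g, 1 ≤ g ∧ ∀ j, V.Has (Φ^[n + g * j] α)} =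
            ⋃ p ∈ F, {n | ∃ j, n = p.1 + p.2 * j}) := by
  have hgiven : ∀ (K : Type) [Field K] (N D : ℕ) (X : Set (PN K N)) (Ψ : PN K N → PN K N),
      GivenInDegree D X Ψ → Pool.Agent.Q170.WD.Given D X Ψ := by
    intro K _ N D X Ψ h x hx
    obtain ⟨F, g, hg, d, e, h1, h2, h3, h4⟩ := h x hx
    exact ⟨F, g, d, e, h1, h2, h3, hg, h4⟩
  refine ⟨fun N D e k => ?_, fun N b κ e k => ?_, fun K _ N X Φ hΦ => ?_⟩
  · obtain ⟨C, hC⟩ := Pool.Agent.Q170.WD.main_exp (N + 1) D e k
    exact ⟨C, fun K _ X Φ V hmaps hG hV hk α hα M T =>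
      hC K X Φ hmaps (hgiven K N D X Φ hG) V.forms
        (fun f hf => ⟨V.homogeneous f hf, hV f hf⟩) hk α hα M T⟩
  · obtain ⟨C, hC⟩ := Pool.Agent.Q170.WD.main_pol (N + 1) b κ e k
    exact ⟨C, fun K _ X Φ V hmaps hG hV hk α hα M T hT =>
      hC K X Φ hmaps (fun g hg => hgiven K N _ X _ (hG g hg)) V.forms
        (fun f hf => ⟨V.homogeneous f hf, hV f hf⟩) hk α hα M T hT⟩
  · have hD : ∃ D, GivenInDegree D X Φ := by
      obtain ⟨T, d, F, -, hF⟩ := Pool.Agent.Q170.HG.exists_chs (X := X) (Φ := Φ) hΦ.1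
        (fun x hx => by
          obtain ⟨D, F, g, hg, d, e, h1, h2, -, h4⟩ := hΦ.2 x hx
          exact ⟨F, g, hg, ⟨d, h1⟩, ⟨e, h2⟩, h4⟩)
      refine ⟨d + d, fun x hx => ?_⟩
      obtain ⟨c, hc⟩ := hF.cov x hx
      obtain ⟨i, hi⟩ := Function.ne_iff.1 hc
      refine ⟨F c, F c i, hi, d, d, hF.hom c, hF.hom c i, le_rfl, fun y hy hyi => ?_⟩
      exact hF.rep y hy c (fun h0 => hyi (congrFun h0 i))
    obtain ⟨D, hD'⟩ := hD
    refine ⟨⟨D, hD'⟩, fun V α hα => ?_⟩
    exact Pool.Agent.Q170.WD.main_orb hΦ.1 (hgiven K N D X Φ hD') V.forms V.homogeneous α hα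

end Pool.Agent.Results.MP_295d38_ag.WeakMordellLangWithRate
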